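import Pool.Agent.Lib.MP_9c5ecf_lc.Main

/-!
Q2: under I1, every large subset of the power set of `l` that is second-order definable over
`V_ l` (by a formula of any complexity) contains the range of a perfect embedding.
-/

namespace Pool.Agent.Results.MP_9c5ecf_lc.AllN

open Pool.Agent.I1PSP

universe u

theorem result (l : Ordinal.{u}) (j : ZFSet.{u} → ZFSet.{u}) (hj : IsI1 l j)
    (ψ : Fml2) (a : ℕ → ZFSet.{u}) (ha : ∀ i, a i ∈ ZFSet.vonNeumann l)
    (B : ℕ → ZFSet.{u}) (hB : ∀ i, B i ∈ ZFSet.vonNeumann (l + 1))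
    (X : Set ZFSet.{u})
    (hX : X = {A | A ∈ ZFSet.vonNeumann (l + 1) ∧ Sat2 l ψ a (cons A B)} ∩ {A | A ⊆ l.toZFSet})
    (hcard : Cardinal.mk (Set.Iio l) < Cardinal.mk X) :
    HasPerfectEmbedding l X :=
  psp2 hj ψ ha hB (fun y => by
    rw [hX]
    exact ⟨fun hy => ⟨hy.2, hy.1.2⟩, fun hy => ⟨⟨mem_V_succ.2 (hy.1.trans
      (ZFSet.subset_vonNeumann.2 (Ordinal.rank_toZFSet l).le)), hy.2⟩, hy.1⟩⟩) hcard

end Pool.Agent.Results.MP_9c5ecf_lc.AllN
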