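import Pool.Agent.Lib.MP_9c5ecf_lc.S3.Main

/-!
Q1 from a Sigma-3-elementary embedding: every large Sigma-1-definable subset of the power set of
`l` (parameters in `V_ (l + 1)`) contains the range of a perfect embedding.
-/

namespace Pool.Agent.Results.MP_9c5ecf_lc.Sigma3

open Pool.Agent.I1PSP Pool.Agent.I1PSP.S3

universe u

theorem result (l : Ordinal.{u}) (j : ZFSet.{u} → ZFSet.{u}) (hj : IsSigmaElem 3 l j)
    (φ : Fml) (hφ : IsSigma1 φ) (z : ℕ → ZFSet.{u}) (hz : ∀ i, z i ∈ ZFSet.vonNeumann (l + 1))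
    (X : Set ZFSet.{u}) (hX : X = {y | Sat Set.univ φ (cons y z)})
    (hsub : ∀ y ∈ X, y ⊆ l.toZFSet) (hcard : Cardinal.mk (Set.Iio l) < Cardinal.mk X) :
    HasPerfectEmbedding l X :=
  psp3 hj hφ hz (fun y => ⟨fun hy => ⟨hsub y hy, by rwa [hX] at hy⟩,
    fun hy => by rw [hX]; exact hy.2⟩) hcard

end Pool.Agent.Results.MP_9c5ecf_lc.Sigma3
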